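import Pool.Agent.W601.RP.Stm2

/-! Project RP (helper601), KILL. -/

set_option autoImplicit false
open scoped Classical
open Filter Topology

namespace Pool.Agent.W591.RP

open Pool.Agent.W601.RP

theorem kill : S_REP → S_KILL1 → S_KILL2 → S_KILL := by
  intro hrep h1 h2 g hg hg0 hinj
  choose F c hF using fun j => hrep (g j) (hg j)
  have hFc : ∀ j, ∀ q ∈ F j, q ∈ QQ ∧ c j q ≠ 0 := fun j => (hF j).1
  have hgs : ∀ j, g j = ∑ q ∈ F j, c j q • x q := fun j => (hF j).2
  by_cases hb : ∀ C : ℕ, ∃ j, ∃ q ∈ F j, C < (c j q).natAbs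
  · obtain ⟨A, hA1, hA2, hA3⟩ := h1 F c hFc hb
    refine ⟨A, hA1, hA2, fun m => ?_⟩
    obtain ⟨j, hj, t, ht, htt⟩ := hA3 m
    exact ⟨j, hj, t, ht, by rw [hgs j]; exact htt⟩
  · by_cases hu : (⋃ j, ((F j : Finset (ℕ → ℕ)) : Set (ℕ → ℕ))).Infinite
    · obtain ⟨A, hA1, hA2, hA3⟩ := h2 F c hFc hu
      refine ⟨A, hA1, hA2, fun m => ?_⟩
      obtain ⟨j, hj, t, ht, htt⟩ := hA3 m
      exact ⟨j, hj, t, ht, by rw [hgs j]; exact htt⟩
    · exfalso
      push Not at hb
      obtain ⟨C, hC⟩ := hb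
      rw [Set.not_infinite] at hu
      set U : Finset (ℕ → ℕ) := hu.toFinset with hU
      have hsub : ∀ j, F j ⊆ U := by
        intro j q hq
        rw [hU, Set.Finite.mem_toFinset]
        exact Set.mem_iUnion.2 ⟨j, hq⟩
      let Φ : (↥U → Fin (2 * C + 1)) → (ℕ → TT) := fun a =>
        ∑ q : ↥U, (((a q : ℕ) : ℤ) - (C : ℤ)) • x q
      have hfin : (Set.range Φ).Finite := Set.finite_range Φ
      refine Set.infinite_range_of_injective hinj (hfin.subset ?_)
      rintro _ ⟨j, rfl⟩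
      have hbd : ∀ q, (if q ∈ F j then c j q else 0).natAbs ≤ C := by
        intro q
        split_ifs with h
        · exact hC j q h
        · simp
      refine ⟨fun q => ⟨((if (q : ℕ → ℕ) ∈ F j then c j q else 0) + (C : ℤ)).toNat, ?_⟩, ?_⟩
      · have := hbd q
        omega
      · have e1 : ∀ q : ℕ → ℕ, ((((((if q ∈ F j then c j q else 0) + (C : ℤ)).toNat : ℕ) : ℤ)) -
            (C : ℤ)) = if q ∈ F j then c j q else 0 := by
          intro q
          have := hbd q
          omega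
        change ∑ q : ↥U, (((((if (q : ℕ → ℕ) ∈ F j then c j q else 0) + (C : ℤ)).toNat : ℕ) : ℤ) -
          (C : ℤ)) • x q = g j
        rw [hgs j]
        rw [Finset.sum_coe_sort U (fun q => (((((if q ∈ F j then c j q else 0) +
          (C : ℤ)).toNat : ℕ) : ℤ) - (C : ℤ)) • x q)]
        rw [← Finset.sum_subset (hsub j)]
        · refine Finset.sum_congr rfl fun q hq => ?_
          rw [e1, if_pos hq]
        · intro q _ hq
          rw [e1, if_neg hq, zero_smul]

end Pool.Agent.W591.RP
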